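import Pool.Agent.U569.APL.Uni
import Pool.Agent.N891.LT.Rare

/-!
# Lehmer's totient problem for products, values of bilinear maps and polynomials at the elements of arbitrary sets modulo `p`

The question is whether there is a composite integer `n > 4` such that `φ(n) ∣ n - a(n)`, where `a(n)` is the
largest exponent in the prime factorisation of `n`; equivalently, whether `φ(n) ∣ n - 1` for a composite `n`.

The bounds for the number of the solutions up to `x` say nothing on sets without structure, or on short intervals. The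
starting results treat sparse sequences: random orbits, orbits along normal sequences, generalised polynomials. Here
integral vectors are formed from the elements of ARBITRARY sets of residues modulo a prime `P`. Consider a sequence
(`j = 0, 1, 2, …`) of finite families of vectors of `r` integers of one of the following kinds.

1. `c₀ + y_i`, where `y_i`, `i ∈ s`, is any family of vectors of `r` residues modulo `q` whose nontrivial Fourier
   coefficients are at most `1 / (Z (42 + 3 log q) ^ r)`, with `Z ≤ q` and `Z → ∞`.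
2. `c₀ +` the residues of `β(x, y) + u(x) + v(y)`, `x ∈ E`, `y ∈ F`, where `β` is a bilinear map
   `k ^ a × k ^ b → k ^ r` over the field `k` of `P` elements, all of whose nontrivial combinations of coordinates are
   of rank at least `ρ`, `u` and `v` are ARBITRARY functions, and `E ⊆ k ^ a`, `F ⊆ k ^ b` ARBITRARY sets with
   `|E| |F| ≥ P ^ (a + b - ρ + δ)`. For example `r = 1` and the products `x y`, `|E| |F| ≥ P ^ (1 + δ)`.
3. `c₀_l +` the residues of `F_l (a) + ∑_i u_i (a_i)_l`, `a ∈ A_1 × … × A_k`, where the `F_l` are polynomials of degree at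
   most `P ^ (δ / 4)` such that every nontrivial combination has a monomial with at least two variables, the `u_i` are
   ARBITRARY functions and the `A_i` ARBITRARY sets of at least `P ^ (1 / 2 + δ)` residues.
4. `c₀_l +` the residues of `F_l (h)`, `h ∈ H`, where `H` is any subgroup of at least `P ^ (1 / 2 + δ)` elements of the
   multiplicative group modulo `P` and the `F_l` are polynomials in one variable of degree at most `P ^ (δ / 4)`, such
   that no nontrivial combination is constant; for example the vectors `(h, h ^ 2, …, h ^ r)`.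

Here `c₀` is an arbitrary vector of integers, `P → ∞`, and everything may depend on `j`.

**Theorem.** In all these families there are sets `E_j` of exceptions, `|E_j| = o(|s_j|)`, such that for ALL linear
forms `ℓ ≠ 0` and ALL nonconstant polynomials `f` with integral coefficients, `x = f(ℓ(v))`:

* for all `G ≠ 0` and `k`, for all members `v` outside `E_j` of the families with large `j` there are `k` primes `q`
  which do not divide `G(x)`, but divide `p - 1` for some prime divisor `p` of `x`;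
* for all `G ≠ 0` and `M`, in the same sense `M gcd(φ(x), G(x)) ≤ φ(x)`, if `x ≥ 1`;
* for all `C`, in the same sense no solution `n` of the problem has `|n - x| ≤ C`.

Since `c₀` is arbitrary, `P` may tend to infinity as slowly as we like in terms of the size of the numbers: for
arbitrary sets `E`, `F` of residues with `|E| |F| ≥ P ^ (1 + δ)` almost none of the numbers `c₀ + (x y mod P)` in the
interval `[c₀, c₀ + P)` is near a solution.

Proof. The exceptional vectors form pronull sets (starting library, `Pool.Agent.N891.LT`); well distributed sequences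
visit pronull sets rarely (`Pool.Agent.N918.EQ`), and a transfer principle (`Pool.Agent.N384.VF`) gives the families of
residues. New: the exponential sums for 2, 3, 4 (`Pool.Agent.U569.APL`), one small set of exceptions for all forms and
polynomials, and this application.
-/

set_option autoImplicit false

namespace Pool.Agent.Results.MP_b50d59_nt.ArbitrarySets

open Finset Filter Polynomial
open Pool.Agent.N24.RW (ProNull)
open Pool.Agent.U569.APL (Spread spread_diag spread_fam spread_prod spread_bil spread_grp)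

/-- `n` is a composite integer `n > 4` with `φ(n) ∣ n - a(n)`, where `a(n)` is the largest exponent in the
prime factorisation of `n`. -/
def Solution (n : ℕ) : Prop := 4 < n ∧ ¬ n.Prime ∧ n.totient ∣ (n - Nca8c8b9b.a n)

/-- There are `k` primes `q` with `q ∤ G(n)` and `q ∣ p - 1` for some prime divisor `p` of `n`. -/
def Far (G : ℤ[X]) (k : ℕ) (n : ℤ) : Prop :=
  ∃ Q : Finset ℕ, Q.card = k ∧ ∀ q ∈ Q, q.Prime ∧ ¬ (q : ℤ) ∣ G.eval n ∧
    ∃ p : ℕ, p.Prime ∧ (p : ℤ) ∣ n ∧ q ∣ p - 1

/-- `E j` is a subset of `s j` and `|E j| = o(|s j|)`. -/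
def Small {τ : ℕ → Type} (s E : ∀ j, Finset (τ j)) : Prop :=
  (∀ j, E j ⊆ s j) ∧ ∀ ε : ℝ, 0 < ε → ∀ᶠ j in atTop, ((E j).card : ℝ) ≤ ε * (s j).card

/-- The property `R` holds for all large `j` for all the vectors `v j i`, `i ∈ s j`, `i ∉ E j`. -/
def Outside {r : ℕ} {τ : ℕ → Type} (s E : ∀ j, Finset (τ j)) (v : ∀ j, τ j → Fin r → ℤ)
    (R : (Fin r → ℤ) → Prop) : Prop :=
  ∀ᶠ j in atTop, ∀ i ∈ s j, i ∉ E j → R (v j i)

/-- There is one small set of exceptions such that for all linear forms `ℓ ≠ 0` and all nonconstant polynomials `f` the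
numbers `x = f(ℓ(v))` have the three properties. -/
def FarFromLehmer {r : ℕ} {τ : ℕ → Type} (s : ∀ j, Finset (τ j)) (v : ∀ j, τ j → Fin r → ℤ) : Prop :=
  ∃ E : ∀ j, Finset (τ j), Small s E ∧ ∀ lam : Fin r → ℤ, lam ≠ 0 → ∀ f : ℤ[X], 0 < f.natDegree →
    (∀ G : ℤ[X], G ≠ 0 → ∀ k : ℕ, Outside s E v fun c => Far G k (f.eval (∑ i, lam i * c i))) ∧
    (∀ G : ℤ[X], G ≠ 0 → ∀ M : ℕ, Outside s E v fun c => ∀ n : ℕ, 1 ≤ n → (n : ℤ) = f.eval (∑ i, lam i * c i) →
      M * Nat.gcd n.totient (G.eval (n : ℤ)).natAbs ≤ n.totient) ∧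
    ∀ C : ℕ, Outside s E v fun c => ∀ n : ℕ, |(n : ℤ) - f.eval (∑ i, lam i * c i)| ≤ C → ¬ Solution n

/-- The nontrivial Fourier coefficients of the family `y i`, `i ∈ s`, of vectors of `r` residues modulo `q` are at most
`1 / (Z (42 + 3 log q) ^ r)`, and `Z ≤ q`. -/
def SmallFourier {τ : Type} (r q : ℕ) [NeZero q] (s : Finset τ) (y : τ → Fin r → ZMod q) (Z : ℝ) : Prop :=
  Z ≤ q ∧ ∀ h : Fin r → ZMod q, h ≠ 0 →
    ‖∑ i ∈ s, (ZMod.stdAddChar (∑ j, h j * y i j) : ℂ)‖ ≤ 1 / (Z * (42 + 3 * Real.log q) ^ r) * s.card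

/-- `F` has a monomial which contains at least two different variables. -/
def Mixed {p k : ℕ} (F : MvPolynomial (Fin k) (ZMod p)) : Prop :=
  ∃ m ∈ F.support, ∃ i j : Fin k, i ≠ j ∧ m i ≠ 0 ∧ m j ≠ 0

theorem far_of_spread {r : ℕ} {τ : ℕ → Type} {s : ∀ j, Finset (τ j)} {v : ∀ j, τ j → Fin r → ℤ} (h : Spread s v) :
    FarFromLehmer s v := by
  have c1 : Countable ℤ[X] := by
    rw [← Cardinal.mk_le_aleph0_iff]
    refine (Polynomial.cardinalMk_le_max (R := ℤ)).trans ?_
    exact max_le (Cardinal.mk_le_aleph0_iff.2 inferInstance) le_rfl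
  obtain ⟨E, hE, h1⟩ := spread_diag (Φ := (Fin r → ℤ) × ℤ[X] × ℤ[X] × ℕ) h (fun φ => {c | φ.1 ≠ 0 ∧ 0 < φ.2.1.natDegree ∧
      φ.2.2.1 ≠ 0 ∧ ¬ Far φ.2.2.1 φ.2.2.2 (φ.2.1.eval (∑ i, φ.1 i * c i))}) (by
    rintro ⟨lam, f, G, k⟩
    by_cases hc : lam ≠ 0 ∧ 0 < f.natDegree ∧ G ≠ 0
    · intro M hM ε hε
      obtain ⟨q, h1, h2, h3⟩ := Pool.Agent.N891.LT.far_null lam hc.1 f hc.2.1 G hc.2.2 k M hM ε hε
      have : NeZero q := ⟨h1.ne'⟩
      refine ⟨q, h1, h2, le_trans ?_ h3⟩
      rw [Nat.cast_le]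
      refine Set.ncard_le_ncard (Set.image_mono fun c hcc => hcc.2.2.2) (Set.toFinite _)
    · have : {c : Fin r → ℤ | lam ≠ 0 ∧ 0 < f.natDegree ∧ G ≠ 0 ∧ ¬ Far G k (f.eval (∑ i, lam i * c i))} = ∅ := by
        ext c
        simp only [Set.mem_ofPred_eq, Set.mem_empty_iff_false, iff_false]
        rintro ⟨a1, a2, a3, -⟩
        exact hc ⟨a1, a2, a3⟩
      intro M hM ε hε
      refine ⟨1, one_pos, Nat.coprime_one_left M, ?_⟩
      simp only at this ⊢
      rw [this, Set.image_empty, Set.ncard_empty, Nat.cast_zero]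
      positivity)
  have key : ∀ lam : Fin r → ℤ, lam ≠ 0 → ∀ f : ℤ[X], 0 < f.natDegree → ∀ G : ℤ[X], G ≠ 0 → ∀ k : ℕ,
      Outside s E v fun c => Far G k (f.eval (∑ i, lam i * c i)) := by
    intro lam hl f hf G hG k
    filter_upwards [h1 (lam, f, G, k)] with j hj i hi hiE
    by_contra hcon
    exact hj i hi hiE ⟨hl, hf, hG, hcon⟩
  refine ⟨E, hE, fun lam hl f hf => ⟨key lam hl f hf, fun G hG M => ?_, fun C₀ => ?_⟩⟩
  · filter_upwards [key lam hl f hf G hG M] with j hj i hi hiE n hn hnt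
    have hF := hj i hi hiE
    rw [← hnt] at hF
    have h4 := Pool.Agent.N891.LT.far_gcd hn hF
    have h5 : M * Nat.gcd n.totient (G.eval (n : ℤ)).natAbs ≤
        2 ^ M * Nat.gcd n.totient (G.eval (n : ℤ)).natAbs :=
      Nat.mul_le_mul_right _ Nat.lt_two_pow_self.le
    exact h5.trans h4
  · have hX : (X - 1 : ℤ[X]) ≠ 0 := X_sub_C_ne_zero 1
    have h2 : ∀ᶠ j in atTop, ∀ b ∈ Finset.Icc (-(C₀ : ℤ)) C₀, ∀ i ∈ s j, i ∉ E j →
        Far (X - 1) 1 ((f + C b).eval (∑ l, lam l * v j i l)) := by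
      rw [Finset.eventually_all]
      intro b _
      exact key lam hl (f + C b) (by rwa [natDegree_add_C]) (X - 1) hX 1
    filter_upwards [h2] with j hj i hi hiE n hn hsol
    have h3 := hj ((n : ℤ) - f.eval (∑ l, lam l * v j i l)) (Finset.mem_Icc.2 (abs_le.1 hn)) i hi hiE
    have e : (f + C ((n : ℤ) - f.eval (∑ l, lam l * v j i l))).eval (∑ l, lam l * v j i l) = (n : ℤ) := by
      rw [eval_add, eval_C]
      ring
    rw [e] at h3
    exact Pool.Agent.N891.LT.not_far hsol.1 hsol.2.1 hsol.2.2 h3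

/-- Almost all members of the families are far from the solutions of Lehmer's problem: families of vectors of residues
with small Fourier coefficients (1), values of bilinear maps at the elements of two arbitrary sets (2), values of
polynomials on products of arbitrary sets (3) and on subgroups of the multiplicative group (4). -/
theorem result (r : ℕ) :
    (∀ (τ : ℕ → Type) (q : ℕ → ℕ) [∀ j, NeZero (q j)] (s : ∀ j, Finset (τ j)) (y : ∀ j, τ j → Fin r → ZMod (q j))
      (Z : ℕ → ℝ) (c₀ : ℕ → Fin r → ℤ), Tendsto Z atTop atTop → (∀ j, SmallFourier r (q j) (s j) (y j) (Z j)) →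
      FarFromLehmer s (fun j i l => c₀ j l + ((y j i l).val : ℕ))) ∧
    (∀ δ : ℝ, 0 < δ → δ ≤ 1 → ∀ (P : ℕ → ℕ), (∀ j, (P j).Prime) → Tendsto P atTop atTop →
      (∀ (a b ρ : ℕ → ℕ) (M : ∀ j, Fin r → Matrix (Fin (a j)) (Fin (b j)) (ZMod (P j)))
        (E : ∀ j, Finset (Fin (a j) → ZMod (P j))) (F : ∀ j, Finset (Fin (b j) → ZMod (P j)))
        (u : ∀ j, (Fin (a j) → ZMod (P j)) → Fin r → ZMod (P j))
        (v : ∀ j, (Fin (b j) → ZMod (P j)) → Fin r → ZMod (P j)) (c₀ : ℕ → Fin r → ℤ),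
        (∀ j, ∀ α : Fin r → ZMod (P j), α ≠ 0 → ρ j ≤ (∑ l, α l • M j l).rank) →
        (∀ j, (P j : ℝ) ^ (((a j + b j : ℕ) : ℝ) + δ) ≤ (E j).card * (F j).card * (P j : ℝ) ^ ρ j) →
        FarFromLehmer (fun j => E j ×ˢ F j) (fun j z l =>
          c₀ j l + ((z.1 ⬝ᵥ Matrix.mulVec (M j l) z.2 + u j z.1 l + v j z.2 l).val : ℕ))) ∧
      (∀ (k : ℕ → ℕ) (F : ∀ j, Fin r → MvPolynomial (Fin (k j)) (ZMod (P j)))
        (A : ∀ j, Fin (k j) → Finset (ZMod (P j))) (u : ∀ j, Fin (k j) → ZMod (P j) → Fin r → ZMod (P j))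
        (c₀ : ℕ → Fin r → ℤ), (∀ j l, ((F j l).totalDegree : ℝ) ≤ (P j : ℝ) ^ (δ / 4)) →
        (∀ j, ∀ α : Fin r → ZMod (P j), α ≠ 0 → Mixed (∑ l, MvPolynomial.C (α l) * F j l)) →
        (∀ j i, (P j : ℝ) ^ (1 / 2 + δ) ≤ (A j i).card) →
        FarFromLehmer (fun j => Fintype.piFinset (A j)) (fun j a l =>
          c₀ j l + ((MvPolynomial.eval a (F j l) + ∑ i, u j i (a i) l).val : ℕ))) ∧
      (∀ (H : ∀ j, Subgroup (ZMod (P j))ˣ) (s : ∀ j, Finset (ZMod (P j))ˣ) (F : ∀ j, Fin r → Polynomial (ZMod (P j)))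
        (c₀ : ℕ → Fin r → ℤ), (∀ j x, x ∈ s j ↔ x ∈ H j) →
        (∀ j l, ((F j l).natDegree : ℝ) ≤ (P j : ℝ) ^ (δ / 4)) →
        (∀ j, ∀ α : Fin r → ZMod (P j), α ≠ 0 → 0 < (∑ l, Polynomial.C (α l) * F j l).natDegree) →
        (∀ j, (P j : ℝ) ^ (1 / 2 + δ) ≤ (s j).card) →
        FarFromLehmer s (fun j h l => c₀ j l + (((F j l).eval (h : ZMod (P j))).val : ℕ)))) := by
  refine ⟨fun τ q _ s y Z c₀ hZ hv => far_of_spread (spread_fam q s y Z c₀ hZ fun j =>
      ⟨(hv j).1, by rw [Fintype.card_fin]; exact (hv j).2⟩), fun δ hδ hδ1 P hP hP' => ⟨?_, ?_, ?_⟩⟩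
  · intro a b ρ M E F u v c₀ hM hEF
    exact far_of_spread (spread_bil δ hδ hδ1 P hP hP' a b ρ M E F u v hM hEF c₀)
  · intro k F A u c₀ hF hF' hA
    exact far_of_spread (spread_prod δ hδ hδ1 P hP hP' k F A u hF hF' hA c₀)
  · intro H s F c₀ hs hF hF' hH
    exact far_of_spread (spread_grp δ hδ hδ1 P hP hP' H s hs F hF hF' hH c₀)

end Pool.Agent.Results.MP_b50d59_nt.ArbitrarySets
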