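import Pool.Agent.U397.Leh.Cyc
import Pool.Agent.U397.Leh.Pow

/-!
# The numbers `p - 1` for the prime factors `p` of a composite `n` with `φ(n) ∣ n - 1`

The question is whether there is a composite `n > 4` with `φ(n) ∣ n - a(n)`, where `a(n)` is the
largest exponent in the factorisation of `n`; it is known (problem file) that this is Lehmer's
condition `φ(n) ∣ n - 1`.

Let `n` be such a number, `n - 1 = k φ(n)`, let `P` be the least prime factor of `n` and let `w`
be the number of prime factors of `n - 1`.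

**Theorem.** For every `d ≥ 1` and every exponent `0 < t ≤ 1`
`log k ≤ ∑_{p ∣ n, p ≢ 1 (mod d)} 1 / (p - 1) + (P - 1)^(t - 1) d^(-t) ∏_{q ∣ n - 1} (1 - q^(-t))⁻¹`.

The right side depends on `n - 1` only through its set of prime factors. Consequences, with an
absolute constant `C`:

* `d (log k - ∑_{p ∣ n, p ≢ 1 (mod d)} 1 / (p - 1)) ≤ C log w` for all `d`;
  so `gcd_{p ∣ n} (p - 1) · log k ≤ C log w`;
* if all prime factors of `n` with at most one exception are `1` modulo `d`, then `d ≤ C log w`;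
* `log P ≤ log w · (log log w + C)`: the least prime factor of `n` is bounded in terms of the
  number of prime factors of `n - 1`;
* if `n = m ^ l + 1` and `2 ^ v` is the largest power of two which divides `l`, then
  `2 ^ (v + 1) log k ≤ m / φ(m)`; so there is no solution of this form if
  `2 ^ (v + 1) log 2 > m / φ(m)`, whatever the odd part of the exponent is;
* no value `Φ_d(g)` (`g ≥ 2`) of a cyclotomic polynomial with `d > C log (log g + 2)` is a
  composite solution.
-/

set_option autoImplicit false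

namespace Pool.Agent.Results.MP_b50d59_nt.GcdAndLeastPrime

open Polynomial

theorem result :
    -- the inequality
    (∀ (n k d : ℕ) (t : ℝ), 1 < n → ¬ n.Prime → n - 1 = k * n.totient → 1 ≤ d → 0 < t → t ≤ 1 →
      Real.log k ≤ ∑ p ∈ n.primeFactors with ¬ d ∣ p - 1, ((p : ℝ) - 1)⁻¹ +
        ((n.minFac : ℝ) - 1) ^ (-(1 - t)) * ((d : ℝ) ^ (-t) *
          ∏ q ∈ (n - 1).primeFactors, (1 - (q : ℝ) ^ (-t))⁻¹)) ∧
    -- numbers `m ^ l + 1`
    (∀ m l k : ℕ, 1 < m ^ l + 1 → ¬ (m ^ l + 1).Prime → m ^ l = k * (m ^ l + 1).totient →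
      (2 : ℝ) ^ (padicValNat 2 l + 1) * Real.log k ≤ (m : ℝ) / m.totient) ∧
    -- consequences with the number of prime factors of `n - 1`
    ∃ C : ℝ,
      (∀ n k d : ℕ, 1 < n → ¬ n.Prime → n - 1 = k * n.totient → 1 ≤ d →
        (d : ℝ) * (Real.log k - ∑ p ∈ n.primeFactors with ¬ d ∣ p - 1, ((p : ℝ) - 1)⁻¹) ≤
          C * Real.log (n - 1).primeFactors.card) ∧
      (∀ n d : ℕ, 1 < n → ¬ n.Prime → n.totient ∣ n - 1 → 1 ≤ d →
        (n.primeFactors.filter (fun p => ¬ d ∣ p - 1)).card ≤ 1 →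
        (d : ℝ) ≤ C * Real.log (n - 1).primeFactors.card) ∧
      (∀ n : ℕ, 1 < n → ¬ n.Prime → n.totient ∣ n - 1 →
        Real.log n.minFac ≤ Real.log (n - 1).primeFactors.card *
          (Real.log (Real.log (n - 1).primeFactors.card) + C)) ∧
      (∀ d g n : ℕ, 2 ≤ g → (n : ℤ) = (cyclotomic d ℤ).eval (g : ℤ) →
        1 < n → ¬ n.Prime → n.totient ∣ n - 1 → (d : ℝ) ≤ C * Real.log (Real.log g + 2)) := by
  refine ⟨fun n k d t hn hc h hd ht ht1 => Pool.Agent.U397.Leh.main n k hn hc h d hd ht ht1,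
    Pool.Agent.U397.Leh.pow_add_one, ?_⟩
  obtain ⟨C1, h10, h1⟩ := Pool.Agent.U397.Leh.gcd_bound
  obtain ⟨C2, h20, h2⟩ := Pool.Agent.U397.Leh.exc_bound
  obtain ⟨C3, h3⟩ := Pool.Agent.U397.Leh.min_bound
  obtain ⟨C4, h40, h4⟩ := Pool.Agent.U397.Leh.cyc_bound
  have hlog0 : ∀ n : ℕ, 0 ≤ Real.log (n : ℝ) := fun n => Real.log_natCast_nonneg n
  refine ⟨C1 + C2 + |C3| + C4, ?_, ?_, ?_, ?_⟩
  · intro n k d hn hc h hd
    refine (h1 n k d hn hc h hd).trans (mul_le_mul_of_nonneg_right ?_ (hlog0 _))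
    have := abs_nonneg C3
    linarith
  · intro n d hn hc h hd hcard
    refine (h2 n d hn hc h hd hcard).trans (mul_le_mul_of_nonneg_right ?_ (hlog0 _))
    have := abs_nonneg C3
    linarith
  · intro n hn hc h
    refine (h3 n hn hc h).trans (mul_le_mul_of_nonneg_left ?_ (hlog0 _))
    have := le_abs_self C3
    linarith
  · intro d g n hg hne hn hc h
    have hna : ((cyclotomic d ℤ).eval (g : ℤ)).natAbs = n := by rw [← hne, Int.natAbs_natCast]
    have h5 := h4 d g hg (by rw [hna]; exact hn) (by rw [hna]; exact hc) (by rw [hna]; exact h)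
    have hg2 : (2 : ℝ) ≤ g := by exact_mod_cast hg
    have hL : 0 ≤ Real.log (Real.log g + 2) := by
      apply Real.log_nonneg
      have := hlog0 g
      linarith
    refine h5.trans (mul_le_mul_of_nonneg_right ?_ hL)
    have := abs_nonneg C3
    linarith

end Pool.Agent.Results.MP_b50d59_nt.GcdAndLeastPrime
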