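import Pool.Agent.U237.LehRep7

set_option autoImplicit false

/-!
# Repulsion of the solutions

`Solution n` is the condition of Q1 (composite `n > 4` with `n ≡ a(n) mod φ(n)`). Two different solutions
differ in at least three primes, the index `(n - 1) / φ(n)` increases strictly under proper divisibility
of solutions, and two solutions which differ in `r` primes have a small greatest common divisor:
`φ(gcd)` is at most double exponential in `r`, with a bound which depends only on `r` if the indices are
different (in particular if one of the solutions divides the other one).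
-/

namespace Pool.Agent.Results.MP_b50d59_nt.LehmerRepulsion

/-- The solutions of Q1: composite integers `n > 4` with `n ≡ a(n) (mod φ(n))`, where `a(n)` is the
largest exponent in the prime factorisation of `n`. -/
def Solution (n : ℕ) : Prop := 4 < n ∧ ¬ n.Prime ∧ n.totient ∣ n - Nca8c8b9b.a n

/-- The index `(n - 1) / φ(n)` of a solution. -/
def index (n : ℕ) : ℕ := (n - 1) / n.totient

/-- The number of the primes which divide exactly one of the two numbers. -/
def dist (M N : ℕ) : ℕ := (symmDiff M.primeFactors N.primeFactors).card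

/-- The bound `(r (r + 2) 2 ^ r) ^ (2 ^ (r + 1))`. -/
def bound (r : ℕ) : ℕ := (r * (r + 2) * 2 ^ r) ^ (2 ^ (r + 1))

open Pool.Agent.U237.LehRep Pool.Agent.H95R2.Leh

theorem aux {M N : ℕ} (hM : Solution M) (hN : Solution N) (hlt : M < N) :
    (3 ≤ dist M N ∧ (∀ p : ℕ, p.Prime → (p ∣ M ∧ ¬ p ∣ N ∨ p ∣ N ∧ ¬ p ∣ M) →
      (Nat.gcd M N).totient <
        2 * (2 * max (index M) (index N) * dist M N) ^ (2 ^ (dist M N - 1) - 1) *
          p ^ (2 ^ (dist M N - 1))) ∧
    (index M ≠ index N → (Nat.gcd M N).totient < bound (dist M N) ∧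
      max M N < (2 ^ dist M N * bound (dist M N)) ^ (2 ^ dist M N * bound (dist M N)))) ∧
    (M ∣ N → index M < index N) := by
  have hM' := leh_of_congr hM.1 hM.2.1 hM.2.2
  have hN' := leh_of_congr hN.1 hN.2.1 hN.2.2
  obtain ⟨h1, h2, h3, h4⟩ := main_lt hM' hN' hlt
  refine ⟨⟨h1, ?_, fun hne => ⟨h4 hne, ?_⟩⟩, h2⟩
  · intro p hp hpM
    have hmem : p ∈ dif M N := by
      unfold dif
      rw [Finset.mem_symmDiff, Nat.mem_primeFactors, Nat.mem_primeFactors]
      have hM0 : M ≠ 0 := by have := hM.1; omega
      have hN0 : N ≠ 0 := by have := hN.1; omega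
      rcases hpM with h | h
      · exact Or.inl ⟨⟨hp, h.1, hM0⟩, fun hh => h.2 hh.2.1⟩
      · exact Or.inr ⟨⟨hp, h.1, hN0⟩, fun hh => h.2 hh.2.1⟩
    have h5 := h3 p hmem
    rw [← mul_assoc] at h5
    exact h5
  · rw [max_eq_right hlt.le]
    exact both_lt hM' hN' hlt hne

/-- **Repulsion of solutions.** -/
theorem result :
    -- two different solutions
    (∀ M N : ℕ, Solution M → Solution N → M ≠ N →
      -- (1) at least three primes divide exactly one of them
      3 ≤ dist M N ∧
      -- (2) the index increases under divisibility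
      (M ∣ N → index M < index N) ∧
      -- (3) the totient of the greatest common divisor is small
      (∀ p : ℕ, p.Prime → (p ∣ M ∧ ¬ p ∣ N ∨ p ∣ N ∧ ¬ p ∣ M) →
        (Nat.gcd M N).totient <
          2 * (2 * max (index M) (index N) * dist M N) ^ (2 ^ (dist M N - 1) - 1) *
            p ^ (2 ^ (dist M N - 1))) ∧
      -- (4) for different indices there is a bound in terms of the number `r` of these primes alone
      (index M ≠ index N → (Nat.gcd M N).totient < bound (dist M N) ∧
        max M N < (2 ^ dist M N * bound (dist M N)) ^ (2 ^ dist M N * bound (dist M N)))) ∧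
    -- (5) for each `r` only finitely many pairs of solutions of different index have distance `r`
    (∀ r : ℕ, {P : ℕ × ℕ | Solution P.1 ∧ Solution P.2 ∧ index P.1 ≠ index P.2 ∧
      dist P.1 P.2 = r}.Finite) ∧
    -- (6) for each `r` only finitely many solutions `M` have a proper multiple `N` which is a
    -- solution and has `r` more prime factors
    (∀ r : ℕ, {P : ℕ × ℕ | Solution P.1 ∧ Solution P.2 ∧ P.1 ≠ P.2 ∧ P.1 ∣ P.2 ∧
      (P.2 / P.1).primeFactors.card = r}.Finite) := by
  have main : ∀ M N : ℕ, Solution M → Solution N → M ≠ N →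
      3 ≤ dist M N ∧
      (M ∣ N → index M < index N) ∧
      (∀ p : ℕ, p.Prime → (p ∣ M ∧ ¬ p ∣ N ∨ p ∣ N ∧ ¬ p ∣ M) →
        (Nat.gcd M N).totient <
          2 * (2 * max (index M) (index N) * dist M N) ^ (2 ^ (dist M N - 1) - 1) *
            p ^ (2 ^ (dist M N - 1))) ∧
      (index M ≠ index N → (Nat.gcd M N).totient < bound (dist M N) ∧
        max M N < (2 ^ dist M N * bound (dist M N)) ^
          (2 ^ dist M N * bound (dist M N))) := by
    intro M N hM hN hne
    rcases lt_or_gt_of_ne hne with hlt | hgt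
    · obtain ⟨⟨h1, h3, h4⟩, h2⟩ := aux hM hN hlt
      exact ⟨h1, h2, h3, h4⟩
    · obtain ⟨⟨h1, h3, h4⟩, -⟩ := aux hN hM hgt
      have e : dist N M = dist M N := by unfold dist; rw [symmDiff_comm]
      rw [e, Nat.gcd_comm, max_comm (index N)] at h3
      rw [e, Nat.gcd_comm, max_comm N] at h4
      rw [e] at h1
      refine ⟨h1, fun hd => ?_, fun p hp hpM => h3 p hp hpM.symm, fun hi => h4 hi.symm⟩
      exact absurd (Nat.le_of_dvd (by have := hN.1; omega) hd) (by omega)
  have fin : ∀ r : ℕ, {P : ℕ × ℕ | Solution P.1 ∧ Solution P.2 ∧ index P.1 ≠ index P.2 ∧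
      dist P.1 P.2 = r}.Finite := by
    intro r
    refine Set.Finite.subset (((Set.finite_Iio ((2 ^ r * bound r) ^ (2 ^ r * bound r))).prod
      (Set.finite_Iio ((2 ^ r * bound r) ^ (2 ^ r * bound r))))) ?_
    rintro ⟨M, N⟩ ⟨hM, hN, hi, hd⟩
    simp only at hM hN hi hd
    have hne : M ≠ N := fun h => hi (by rw [h])
    have h1 := ((main M N hM hN hne).2.2.2 hi).2
    rw [hd] at h1
    exact Set.mem_prod.2 ⟨(le_max_left M N).trans_lt h1, (le_max_right M N).trans_lt h1⟩
  refine ⟨main, fin, ?_⟩
  intro r
  refine (fin r).subset ?_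
  rintro ⟨M, N⟩ ⟨hM, hN, hne, hdvd, hr⟩
  simp only at hM hN hne hdvd hr
  refine ⟨hM, hN, (((main M N hM hN hne).2.1) hdvd).ne, ?_⟩
  have hN' := leh_of_congr hN.1 hN.2.1 hN.2.2
  have hM' := leh_of_congr hM.1 hM.2.1 hM.2.2
  have hN0 : N ≠ 0 := by have := hN.1; omega
  obtain ⟨k, hk⟩ := hdvd
  have hM0 : 0 < M := by have := hM.1; omega
  have hsq : Squarefree (M * k) := hk ▸ (leh_basic hN').1
  have hcop : Nat.Coprime M k := Nat.coprime_of_squarefree_mul hsq
  have e1 : N / M = k := by rw [hk, Nat.mul_div_cancel_left _ hM0]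
  change dist M N = r
  rw [← hr, e1]
  unfold dist
  rw [hk, hcop.primeFactors_mul]
  congr 1
  ext p
  have hd := Nat.Coprime.disjoint_primeFactors hcop
  rw [Finset.disjoint_left] at hd
  have hd' := @hd p
  simp only [Finset.mem_symmDiff, Finset.mem_union]
  tauto

end Pool.Agent.Results.MP_b50d59_nt.LehmerRepulsion
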