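import Pool.Agent.Results.MP_b50d59_nt.RandomOrbits
import Pool.Agent.U125.NO.Use

/-!
# Lehmer's totient problem along normal sequences

The question is whether there is a composite integer `n > 4` such that `φ(n) ∣ n - a(n)`, where `a(n)` is the
largest exponent in the prime factorisation of `n`; equivalently, whether `φ(n) ∣ n - 1` for a composite `n`.

The bounds for the number of the solutions up to `x` say nothing on sequences which grow exponentially. The
starting results treat such sequences for almost all parameters: orbits of ALMOST ALL infinite words in the
matrices of a thin group, integral parts of the multiples of ALMOST ALL real numbers. Here the sequences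
are deterministic: we name the sequences for which the result holds.

**Normal sequences of letters.** `Normal p w`: every finite word `u` occurs in the sequence `w` of letters with the
frequency `∏ p (u i)`; here `p` are any positive weights of the letters.

**Orbits.** `Maps` is a finite family of affine maps `x ↦ A_j x + b_j` of `ℤ^r` (`A_j`, `b_j` integral);
`path S v w` is the orbit of the vector `v` along the sequence `w` of indices. The family is wide at `v`
(`Wide`) if for all `q` prime to some `q₀` the maps are bijective modulo `q` and the vectors modulo `q` to
which `v` can be moved are at least the proportion `c > 0` of all vectors, `c` independent of `q`.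

**Theorem.** Let `v_n` be the orbit of `v` along ANY normal sequence, for a family which is wide at `v`. For ALL
linear forms `ℓ ≠ 0` and ALL nonconstant polynomials `f` with integral coefficients the values
`x_n = f(ℓ(v_n))` have the three properties `FarFromLehmer`: for 100% of the `n`

(1) for any `G ≠ 0` and `k` there are `k` primes `q` which do not divide `G(x_n)`, but divide `p - 1` for some
prime divisor `p` of `x_n`;

(2) `M gcd(φ(x_n), G(x_n)) ≤ φ(x_n)`, if `x_n ≥ 1`;

(3) no solution `m` of the problem has `|m - x_n| ≤ C`.

Wide families: matrices of determinant one and size `r ≥ 2` which generate the special linear group modulo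
all `q` prime to some `q₀` (for example generators of a Zariski dense subgroup of infinite index), at all `v ≠ 0`;
digits `x ↦ β x + d_j`, `β ≠ 0` an integer and the differences of the vectors `d_j` generating a subgroup of
finite index (for example the integers with missing digits); continued fractions `(x, y) ↦ (a_j x + y, x)` with at
least two different integers `a_j`, at all `v ≠ 0` (numerators and denominators of the convergents of explicit
badly approximable numbers).

**Normal numbers.** In particular let `x ∈ ℝ^r` be normal to the base `b ≥ 2` (`NormalVector`, for `r = 1` these
are Borel's normal numbers). Then the vectors `v_n = (⌊b ^ n x_i⌋)_i` have the property. So, if we write down the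
digits of ANY normal number (for example of Champernowne's number, or of the number of Copeland and Erdős), then
100% of the time the integer `N_n` written so far is not a solution of Lehmer's problem and no solution is
at a distance `≤ C`; and the same holds for `f(N_n)`.

Proof. The exceptional vectors in (1) are a pronull set (starting library, `Pool.Agent.N891.LT`). Modulo `q` the
orbit moves in a finite transitive system of permutations, and along a normal sequence of letters every
orbit in such a system is equidistributed (`Pool.Agent.U125.NO`: Poisson's equation for the averaging operator,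
and the second moment of martingales on blocks of a fixed length). So orbits along normal sequences visit
pronull sets only at times of density zero.
-/

set_option autoImplicit false

namespace Pool.Agent.Results.MP_b50d59_nt.NormalSequences

open Polynomial Filter Topology
open Pool.Agent.N24.RW (ProNull Walk)
open Pool.Agent.U125.NO (Normal Maps path Wide ofWalk digits fractions NormalVector Avoids avoids_path
  avoids_digits)
open Pool.Agent.Results.MP_b50d59_nt.RandomOrbits (FarFromLehmer all_of_far)

/-- For all linear forms `ℓ ≠ 0` and all nonconstant polynomials `f` with integral coefficients the sequence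
`f(ℓ(c_n))` has the three properties `FarFromLehmer`. -/
def AllFar {r : ℕ} (c : ℕ → Fin r → ℤ) : Prop :=
  ∀ lam : Fin r → ℤ, lam ≠ 0 → ∀ f : ℤ[X], 0 < f.natDegree →
    FarFromLehmer fun n => f.eval (∑ i, lam i * c n i)

theorem far_of_avoids {r : ℕ} {c : ℕ → Fin r → ℤ} (h : Avoids c) : AllFar c := by
  intro lam hl f hf
  refine all_of_far (y := fun n => ∑ i, lam i * c n i) (fun f' hf' G hG k => ?_) f hf
  have h1 := h (fun x => ¬ Pool.Agent.N891.LT.Far G k (f'.eval (∑ i, lam i * x i)))
    (Pool.Agent.N891.LT.far_null lam hl f' hf' G hG k)
  exact h1

/-- (1) Let `S` be a finite family of affine maps of `ℤ^r` which is wide at `v`, and `w` a sequence of indices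
which is normal for some positive weights. Then the orbit of `v` along `w` has the property `AllFar`. (2) If the
vector `x ∈ ℝ^r` is normal to the base `b ≥ 2`, then the sequence of the vectors `(⌊b ^ n x_i⌋)_i` has the property
`AllFar`. (3), (4), (5) Wide families: matrices of determinant one which generate the special linear group
modulo all `q` prime to some `q₀`; digits `x ↦ β x + d_j`; continued fractions `(x, y) ↦ (a_j x + y, x)`. -/
theorem result (r : ℕ) :
    (∀ (α : Type) [Fintype α] (S : Maps (Fin r) α) (v : Fin r → ℤ), Wide S v →
      ∀ (p : α → ℝ) (w : ℕ → α), (∀ j, 0 < p j) → Normal p w → AllFar (path S v w)) ∧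
    (∀ (b : ℕ) [NeZero b] (x : Fin r → ℝ), 2 ≤ b → NormalVector b x →
      AllFar fun n i => ⌊(b : ℝ) ^ n * x i⌋) ∧
    (2 ≤ r → ∀ (W : Walk (Fin r)) (v : Fin r → ℤ), v ≠ 0 → Wide (ofWalk W) v) ∧
    (∀ (α : Type) [Fintype α] (β : ℤ) (d : α → Fin r → ℤ) (j₀ : α) (M : ℕ), β ≠ 0 → 0 < M →
      (∀ i, Pi.single i (M : ℤ) ∈ AddSubgroup.closure (Set.range fun j => d j - d j₀)) →
      ∀ v : Fin r → ℤ, Wide (digits β d) v) ∧
    (∀ (α : Type) [Fintype α] (a : α → ℤ) (j₁ j₂ : α), a j₁ ≠ a j₂ →
      ∀ v : Fin 2 → ℤ, v ≠ 0 → Wide (fractions a) v) := by
  refine ⟨fun α _ S v hS p w hp hw lam hl f hf => ?_, fun b _ x hb hx lam hl f hf => ?_, fun hr W v hv => ?_,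
    fun α _ β d j₀ M hβ hM hd v => ?_, fun α _ a j₁ j₂ ha v hv => ?_⟩
  · exact far_of_avoids (avoids_path hS hp hw) lam hl f hf
  · exact far_of_avoids (avoids_digits hb hx) lam hl f hf
  · exact Pool.Agent.U125.NO.wide_walk (by rwa [Fintype.card_fin]) W hv
  · exact Pool.Agent.U125.NO.wide_digits hβ j₀ hM hd v
  · exact Pool.Agent.U125.NO.wide_fractions ha hv

end Pool.Agent.Results.MP_b50d59_nt.NormalSequences
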